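import Mathlib
/-!
# Distal sequences and their closure properties
-/
namespace Pool.Agent.R205.DI
open Set Filter Topology

/-- a map without proximal pairs -/
def DistalMap {X : Type} [MetricSpace X] (T : X → X) : Prop :=
  ∀ x y, x ≠ y → ∃ ε > 0, ∀ n : ℕ, ε ≤ dist (T^[n] x) (T^[n] y)

/-- distal sequences with values in `Z`. -/
def IsD {Z : Type*} [TopologicalSpace Z] (u : ℕ → Z) : Prop :=
  ∃ (X : Type) (_ : MetricSpace X) (_ : CompactSpace X) (T : X → X) (x : X) (F : X → Z),
    Continuous T ∧ DistalMap T ∧ Continuous F ∧ ∀ n, u n = F (T^[n] x)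

variable {Z W : Type*} [TopologicalSpace Z] [TopologicalSpace W]

theorem IsD.comp {u : ℕ → Z} (h : IsD u) {G : Z → W} (hG : Continuous G) :
    IsD (fun n => G (u n)) := by
  obtain ⟨X, iM, iC, T, x, F, hT, hd, hF, hu⟩ := h
  exact ⟨X, iM, iC, T, x, fun y => G (F y), hT, hd, hG.comp hF, fun n => by simp [hu]⟩

theorem pi_iterate {X : ℕ → Type} (T : ∀ k, X k → X k) (n : ℕ) (z : ∀ k, X k) (k : ℕ) :
    ((fun (x : ∀ k, X k) k => T k (x k))^[n] z) k = (T k)^[n] (z k) := by
  induction n with
  | zero => rfl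
  | succ n ih => rw [Function.iterate_succ_apply', Function.iterate_succ_apply', ih]

theorem isD_pi {u : ℕ → ℕ → Z} (h : ∀ k, IsD (u k)) : IsD (fun n k => u k n) := by
  choose X iM iC T x F hT hd hF hu using h
  refine ⟨∀ k, X k, PiCountable.metricSpace, Pi.compactSpace, fun x k => T k (x k), x,
    fun y k => F k (y k), ?_, ?_, ?_, ?_⟩
  · exact continuous_pi fun k => (hT k).comp (continuous_apply k)
  · intro x y hxy
    obtain ⟨k, hk⟩ := Function.ne_iff.1 hxy
    obtain ⟨ε, hε, h⟩ := hd k _ _ hk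
    refine ⟨min (2⁻¹ ^ (Encodable.encode k)) ε, by positivity, fun n => ?_⟩
    refine le_trans ?_ (PiCountable.min_dist_le_dist_pi _ _ k)
    rw [pi_iterate, pi_iterate]
    exact min_le_min le_rfl (h n)
  · exact continuous_pi fun k => (hF k).comp (continuous_apply k)
  · intro n
    funext k
    change u k n = F k (((fun (x : ∀ k, X k) k => T k (x k))^[n] x) k)
    rw [pi_iterate]
    exact hu k n

theorem IsD.map2 {u v : ℕ → Z} (hu : IsD u) (hv : IsD v) {G : Z → Z → W}
    (hG : Continuous fun p : Z × Z => G p.1 p.2) : IsD (fun n => G (u n) (v n)) := by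
  have h := isD_pi (u := fun k => if k = 0 then u else v) (fun k => by
    by_cases hk : k = 0
    · simpa [hk] using hu
    · simpa [hk] using hv)
  have hc : Continuous (fun z : ℕ → Z => G (z 0) (z 1)) :=
    hG.comp (Continuous.prodMk (continuous_apply (0:ℕ)) (continuous_apply (1:ℕ)))
  have h2 := h.comp hc
  simpa using h2

theorem IsD.add {u v : ℕ → ℝ} (hu : IsD u) (hv : IsD v) : IsD (fun n => u n + v n) :=
  hu.map2 hv continuous_add

theorem IsD.sub {u v : ℕ → ℝ} (hu : IsD u) (hv : IsD v) : IsD (fun n => u n - v n) :=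
  hu.map2 hv continuous_sub

theorem IsD.mul {u v : ℕ → ℝ} (hu : IsD u) (hv : IsD v) : IsD (fun n => u n * v n) :=
  hu.map2 hv continuous_mul

/-- the finite rotation -/
def rot (M : ℕ) (hM : 0 < M) (i : {i : ℕ // i < M}) : {i : ℕ // i < M} :=
  ⟨(i.1 + 1) % M, Nat.mod_lt _ hM⟩

theorem rot_inj (M : ℕ) (hM : 0 < M) : Function.Injective (rot M hM) := by
  rintro ⟨i, hi⟩ ⟨j, hj⟩ h
  simp only [rot, Subtype.mk.injEq] at h ⊢
  have h1 : (i + 1) ≡ (j + 1) [MOD M] := h
  have h2 : i ≡ j [MOD M] := Nat.ModEq.add_right_cancel' 1 h1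
  have h3 := h2
  unfold Nat.ModEq at h3
  rwa [Nat.mod_eq_of_lt hi, Nat.mod_eq_of_lt hj] at h3

theorem rot_iterate (M : ℕ) (hM : 0 < M) (n : ℕ) : ((rot M hM)^[n] ⟨0, hM⟩).1 = n % M := by
  induction n with
  | zero => simp
  | succ n ih =>
    rw [Function.iterate_succ_apply']
    simp [rot, ih]

theorem isD_periodic (M : ℕ) (hM : 0 < M) (f : ℕ → Z) : IsD (fun n => f (n % M)) := by
  have hfin : Finite {i : ℕ // i < M} := (Set.finite_lt_nat M).to_subtype
  refine ⟨{i : ℕ // i < M}, inferInstance, inferInstance, rot M hM, ⟨0, hM⟩, fun i => f i.1,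
    continuous_of_discreteTopology, ?_, continuous_of_discreteTopology, ?_⟩
  · intro x y hxy
    refine ⟨1, one_pos, fun n => ?_⟩
    have hne := ((rot_inj M hM).iterate n).ne hxy
    have h4 : ((rot M hM)^[n] x).1 ≠ ((rot M hM)^[n] y).1 := fun h => hne (Subtype.ext h)
    rw [Subtype.dist_eq, Nat.dist_eq]
    have h5 : (1:ℤ) ≤ |(((rot M hM)^[n] x).1 : ℤ) - ((rot M hM)^[n] y).1| := by
      apply Int.one_le_abs
      omega
    exact_mod_cast h5
  · intro n
    simp only
    rw [rot_iterate]

theorem isD_const (c : Z) : IsD (fun _ => c) := by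
  simpa using isD_periodic 1 one_pos (fun _ => c)

/-- the circle extension -/
noncomputable def skew {X : Type} (T : X → X) (φ : X → ℝ) (p : X × UnitAddCircle) :
    X × UnitAddCircle := (T p.1, p.2 + (φ p.1 : UnitAddCircle))

theorem skew_fst {X : Type} (T : X → X) (φ : X → ℝ) (n : ℕ) (p : X × UnitAddCircle) :
    ((skew T φ)^[n] p).1 = T^[n] p.1 := by
  induction n with
  | zero => rfl
  | succ n ih =>
    rw [Function.iterate_succ_apply', Function.iterate_succ_apply', ← ih]
    rfl

theorem isD_sum {θ : ℕ → ℝ} (h : IsD θ) :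
    IsD (fun n => ((∑ j ∈ Finset.range n, θ j : ℝ) : UnitAddCircle)) := by
  obtain ⟨X, iM, iC, T, x, φ, hT, hd, hφ, hu⟩ := h
  refine ⟨X × UnitAddCircle, inferInstance, inferInstance, skew T φ, (x, 0), fun p => p.2,
    ?_, ?_, continuous_snd, ?_⟩
  · refine (hT.comp continuous_fst).prodMk ?_
    exact continuous_snd.add ((AddCircle.continuous_mk' (1:ℝ)).comp (hφ.comp continuous_fst))
  · rintro ⟨x, s⟩ ⟨y, t⟩ hxy
    by_cases h : x = y
    · subst h
      have hst : s ≠ t := fun h => hxy (by rw [h])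
      refine ⟨dist s t, dist_pos.2 hst, fun n => ?_⟩
      have k2 : dist ((skew T φ)^[n] (x, s)).2 ((skew T φ)^[n] (x, t)).2 = dist s t := by
        induction n with
        | zero => rfl
        | succ n ih =>
          rw [Function.iterate_succ_apply', Function.iterate_succ_apply']
          rw [← ih]
          change dist (((skew T φ)^[n] (x, s)).2 + (φ ((skew T φ)^[n] (x, s)).1 : UnitAddCircle))
            (((skew T φ)^[n] (x, t)).2 + (φ ((skew T φ)^[n] (x, t)).1 : UnitAddCircle)) = _
          rw [skew_fst, skew_fst, dist_add_right]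
      rw [← k2]
      exact le_max_right _ _
    · obtain ⟨ε, hε, h⟩ := hd x y h
      refine ⟨ε, hε, fun n => (h n).trans ?_⟩
      have h1 : dist (((skew T φ)^[n] (x, s)).1) (((skew T φ)^[n] (y, t)).1)
          ≤ dist ((skew T φ)^[n] (x, s)) ((skew T φ)^[n] (y, t)) := le_max_left _ _
      rw [skew_fst, skew_fst] at h1
      exact h1
  · intro n
    have key : (skew T φ)^[n] (x, 0)
        = (T^[n] x, ((∑ j ∈ Finset.range n, θ j : ℝ) : UnitAddCircle)) := by
      induction n with
      | zero => simp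
      | succ n ih =>
        rw [Function.iterate_succ_apply', ih]
        simp only [skew]
        rw [Finset.sum_range_succ, hu n, Function.iterate_succ_apply']
        simp
    rw [key]

theorem isD_tsum {φ : ℕ → ℕ → ℝ} (h : ∀ k, IsD (φ k)) {ε : ℕ → ℝ} (hε : Summable ε)
    (hb : ∀ k n, |φ k n| ≤ ε k) : IsD (fun n => ∑' k, φ k n) := by
  have h0 : ∀ k, 0 ≤ ε k := fun k => (abs_nonneg _).trans (hb k 0)
  have hc : Continuous (fun z : ℕ → ℝ => ∑' k, max (-ε k) (min (z k) (ε k))) := by
    refine continuous_tsum (u := ε) ?_ hε ?_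
    · intro k
      exact continuous_const.max ((continuous_apply k).min continuous_const)
    · intro k z
      rw [Real.norm_eq_abs, abs_le]
      exact ⟨le_max_left _ _, max_le (by linarith [h0 k]) (min_le_right _ _)⟩
  have h1 := (isD_pi h).comp hc
  convert h1 using 2 with n
  refine tsum_congr fun k => ?_
  have := abs_le.1 (hb k n)
  rw [min_eq_left this.2, max_eq_right this.1]

end Pool.Agent.R205.DI
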