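import Pool.Agent.R205.DI.Step
/-!
# Distal maps of compact spaces are homeomorphisms, with two-sided bounds
-/
namespace Pool.Agent.R205.DI
open Set Filter Topology
attribute [local instance] Ultrafilter.addSemigroup Ultrafilter.add

theorem exists_idempotent_large : ∃ U : Ultrafilter ℕ, U + U = U ∧
    ∀ K : ℕ, ∀ᶠ n in (U : Filter ℕ), K ≤ n := by
  obtain ⟨U, hU, hU1⟩ := Hindman.exists_idempotent_ultrafilter_le_FS ((fun _ => 1 : ℕ → ℕ) : Stream' ℕ)
  have h1 : ∀ᶠ n in (U : Filter ℕ), 1 ≤ n := by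
    filter_upwards [hU1] with n hn
    obtain ⟨t, ht, -, rfl⟩ := FS_sub (fun _ => 1) (fun _ => 1) 0 (fun i => by simp [Stream'.get]) n hn
    simpa using ht.card_pos
  refine ⟨U, hU, fun K => ?_⟩
  induction K with
  | zero => exact Eventually.of_forall fun n => Nat.zero_le n
  | succ K ih =>
    rw [← hU, Ultrafilter.eventually_add]
    filter_upwards [h1] with n hn
    filter_upwards [ih] with m hm
    omega

theorem distal_homeo {X : Type} [MetricSpace X] [CompactSpace X] {T : X → X}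
    (hT : Continuous T) (hd : DistalMap T) :
    ∃ T' : X ≃ₜ X, (⇑T' = T) ∧ ∀ x y, x ≠ y → ∃ ε : ℝ, 0 < ε ∧ ∀ n : ℕ,
      ε ≤ dist ((⇑T')^[n] x) ((⇑T')^[n] y) ∧ ε ≤ dist ((⇑T'.symm)^[n] x) ((⇑T'.symm)^[n] y) := by
  obtain ⟨U, hU, hUK⟩ := exists_idempotent_large
  have hinj : Function.Injective T := by
    intro x y hxy
    by_contra hne
    obtain ⟨ε, hε, h⟩ := hd x y hne
    have := h 1
    simp only [Function.iterate_one, hxy, dist_self] at this
    linarith
  have hsurj : Function.Surjective T := by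
    intro z
    have h1 := ip_recurrence hT hd U hU z
    have h2 : IsClosed (Set.range T) := (isCompact_range hT).isClosed
    have h3 : ∀ᶠ n in (U : Filter ℕ), T^[n] z ∈ Set.range T := by
      filter_upwards [hUK 1] with n hn
      obtain ⟨m, rfl⟩ : ∃ m, n = m + 1 := ⟨n - 1, by omega⟩
      rw [Function.iterate_succ_apply']
      exact ⟨_, rfl⟩
    exact h2.mem_of_tendsto h1 h3
  let e : X ≃ X := Equiv.ofBijective T ⟨hinj, hsurj⟩
  have he : Continuous e := hT
  refine ⟨Continuous.homeoOfEquivCompactToT2 (f := e) he, rfl, ?_⟩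
  set T' := Continuous.homeoOfEquivCompactToT2 (f := e) he with hT'
  have hT'T : ⇑T' = T := rfl
  intro x y hxy
  obtain ⟨ε, hε, h⟩ := hd x y hxy
  refine ⟨ε, hε, fun k => ⟨by rw [hT'T]; exact h k, ?_⟩⟩
  have hback : ∀ z : X, ∀ n, k ≤ n → T^[n] ((⇑T'.symm)^[k] z) = T^[n - k] z := by
    intro z n hn
    obtain ⟨m, rfl⟩ : ∃ m, n = m + k := ⟨n - k, by omega⟩
    rw [Function.iterate_add_apply, Nat.add_sub_cancel]
    congr 1
    have hl : Function.LeftInverse T T'.symm := fun w => T'.apply_symm_apply w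
    exact hl.iterate k z
  have h1 := (ip_recurrence hT hd U hU ((⇑T'.symm)^[k] x)).dist
    (ip_recurrence hT hd U hU ((⇑T'.symm)^[k] y))
  refine ge_of_tendsto h1 ?_
  filter_upwards [hUK k] with n hn
  rw [hback x n hn, hback y n hn]
  exact h _

/-- distal sequences defined by homeomorphisms and two-sided bounds -/
theorem isD_iff_homeo {Z : Type*} [TopologicalSpace Z] (u : ℕ → Z) :
    IsD u ↔ ∃ (X : Type) (_ : MetricSpace X) (_ : CompactSpace X) (T : X ≃ₜ X),
      (∀ x y : X, x ≠ y → ∃ ε : ℝ, 0 < ε ∧ ∀ n : ℕ,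
        ε ≤ dist ((⇑T)^[n] x) ((⇑T)^[n] y) ∧ ε ≤ dist ((⇑T.symm)^[n] x) ((⇑T.symm)^[n] y)) ∧
      ∃ (x : X) (F : X → Z), Continuous F ∧ ∀ n, u n = F ((⇑T)^[n] x) := by
  constructor
  · rintro ⟨X, iM, iC, T, x, F, h1, h2, h3, h4⟩
    obtain ⟨T', hT', h5⟩ := distal_homeo h1 h2
    exact ⟨X, iM, iC, T', h5, x, F, h3, fun n => by rw [h4, hT']⟩
  · rintro ⟨X, iM, iC, T, h1, x, F, h3, h4⟩
    refine ⟨X, iM, iC, T, x, F, T.continuous, ?_, h3, h4⟩
    intro y z hyz
    obtain ⟨ε, hε, h⟩ := h1 y z hyz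
    exact ⟨ε, hε, fun n => (h n).1⟩

end Pool.Agent.R205.DI
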