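import Pool.Agent.R205.DI.Dist
/-!
# Sets with many translated finite sums are not interpolation sets
-/
namespace Pool.Agent.R205.DI
open Set Filter Topology
attribute [local instance] Ultrafilter.addSemigroup Ultrafilter.add

/-- real interpolation sets (values in `[0,1]`) -/
def Int01 (E : Set ℕ) : Prop :=
  ∀ f : ℕ → ℝ, (∀ n, 0 ≤ f n ∧ f n ≤ 1) → ∃ ψ : ℕ → ℝ, IsD ψ ∧ ∀ n ∈ E, ψ n = f n

/-- `E` contains, for some positive integers `x_0, x_1, …` and every `k`, infinitely many
translates of the set of all sums of `x_0, …, x_{k-1}` (the empty sum included). -/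
def HasIP (E : Set ℕ) : Prop :=
  ∃ x : ℕ → ℕ, (∀ i, 0 < x i) ∧ ∀ k, {m : ℕ | ∀ t ⊆ Finset.range k, m + ∑ i ∈ t, x i ∈ E}.Infinite

theorem FS_sub (x : ℕ → ℕ) (a : Stream' ℕ) (j : ℕ) (ha : ∀ i, a.get i = x (j + i)) (m : ℕ)
    (hm : m ∈ Hindman.FS a) : ∃ t : Finset ℕ, t.Nonempty ∧ (∀ i ∈ t, j ≤ i) ∧ m = ∑ i ∈ t, x i := by
  induction hm generalizing j with
  | head' a =>
    refine ⟨{j}, Finset.singleton_nonempty _, by simp, ?_⟩
    have := ha 0
    simpa [Stream'.head] using this
  | tail' a m _ ih =>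
    obtain ⟨t, h1, h2, h3⟩ := ih (j + 1) (fun i => by
      have := ha (i + 1)
      rw [Stream'.get_tail] 
      rw [this]
      congr 1
      ring)
    exact ⟨t, h1, fun i hi => by have := h2 i hi; omega, h3⟩
  | cons' a m _ ih =>
    obtain ⟨t, h1, h2, h3⟩ := ih (j + 1) (fun i => by
      have := ha (i + 1)
      rw [Stream'.get_tail]
      rw [this]
      congr 1
      ring)
    have hj : j ∉ t := fun h => by have := h2 j h; omega
    refine ⟨insert j t, Finset.insert_nonempty _ _, ?_, ?_⟩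
    · intro i hi
      rcases Finset.mem_insert.1 hi with h | h
      · omega
      · have := h2 i h; omega
    · rw [Finset.sum_insert hj, ← h3]
      have := ha 0
      simp only [add_zero] at this
      rw [← this]

/-- IP recurrence of all points of distal systems -/
theorem ip_recurrence {X : Type} [MetricSpace X] [CompactSpace X] {T : X → X}
    (hT : Continuous T) (hd : DistalMap T) (U : Ultrafilter ℕ) (hU : U + U = U) (z : X) :
    Tendsto (fun n => T^[n] z) U (𝓝 z) := by
  obtain ⟨w, -, hw⟩ := isCompact_univ.ultrafilter_le_nhds (U.map (fun n => T^[n] z)) (by simp)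
  have hw' : Tendsto (fun n => T^[n] z) U (𝓝 w) := hw
  have h2 : Tendsto (fun n => T^[n] w) U (𝓝 w) := by
    rw [Metric.nhds_basis_closedBall.tendsto_right_iff]
    intro ε hε
    have h3 : ∀ᶠ n in (U : Filter ℕ), T^[n] z ∈ Metric.closedBall w ε :=
      hw' (Metric.closedBall_mem_nhds w hε)
    rw [← hU, Ultrafilter.eventually_add] at h3
    filter_upwards [h3] with n hn
    have h4 : Tendsto (fun m => T^[n + m] z) U (𝓝 (T^[n] w)) := by
      have : (fun m => T^[n + m] z) = fun m => T^[n] (T^[m] z) := by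
        funext m
        rw [Function.iterate_add_apply]
      rw [this]
      exact ((hT.iterate n).tendsto w).comp hw'
    exact Metric.isClosed_closedBall.mem_of_tendsto h4 hn
  by_cases hzw : z = w
  · rw [hzw] at hw' ⊢
    exact hw'
  · exfalso
    obtain ⟨ε, hε, h⟩ := hd z w hzw
    have h5 : Tendsto (fun n => dist (T^[n] z) (T^[n] w)) U (𝓝 (dist w w)) := hw'.dist h2
    rw [dist_self] at h5
    have h6 : ∀ᶠ n in (U : Filter ℕ), dist (T^[n] z) (T^[n] w) < ε := h5.eventually_lt_const hε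
    obtain ⟨n, hn⟩ := h6.exists
    linarith [h n]

theorem not_int_of_hasIP {E : Set ℕ} (h : HasIP E) : ¬ Int01 E := by
  intro hI
  obtain ⟨x, hx, hS⟩ := h
  -- choose the sparse sequence
  have hstep : ∀ k L : ℕ, ∃ m, L < m ∧ ∀ t ⊆ Finset.range k, m + ∑ i ∈ t, x i ∈ E := by
    intro k L
    obtain ⟨m, hm, hmL⟩ := (hS k).exists_gt L
    exact ⟨m, hmL, hm⟩
  choose g hg1 hg2 using hstep
  obtain ⟨m, hm0, hm_succ⟩ : ∃ m : ℕ → ℕ, m 0 = g 0 0 ∧
      ∀ k, m (k + 1) = g (k + 1) (m k + ∑ i ∈ Finset.range k, x i) :=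
    ⟨fun k => Nat.rec (g 0 0) (fun k mk => g (k + 1) (mk + ∑ i ∈ Finset.range k, x i)) k,
      rfl, fun k => rfl⟩
  have hmE : ∀ k, ∀ t ⊆ Finset.range k, m k + ∑ i ∈ t, x i ∈ E := by
    intro k
    cases k with
    | zero => rw [hm0]; exact hg2 0 0
    | succ k => rw [hm_succ]; exact hg2 _ _
  have hm_lt : ∀ k, m k + ∑ i ∈ Finset.range k, x i < m (k + 1) := by
    intro k
    rw [hm_succ]
    exact hg1 _ _
  have hmono : StrictMono m := strictMono_nat_of_lt_succ fun k => by
    have := hm_lt k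
    omega
  classical
  obtain ⟨ψ, hψ, hψE⟩ := hI (fun n => if n ∈ Set.range m then 0 else 1) (by
    intro n
    split_ifs <;> norm_num)
  have h0 : ∀ k, ψ (m k) = 0 := by
    intro k
    have h1 := hmE k ∅ (by simp)
    simp only [Finset.sum_empty, add_zero] at h1
    rw [hψE _ h1, if_pos ⟨k, rfl⟩]
  have h1 : ∀ t : Finset ℕ, t.Nonempty → ∀ k, t ⊆ Finset.range k → ψ (m k + ∑ i ∈ t, x i) = 1 := by
    intro t ht k htk
    rw [hψE _ (hmE k t htk), if_neg]
    rintro ⟨l, hl⟩
    have hpos : 0 < ∑ i ∈ t, x i := Finset.sum_pos (fun i _ => hx i) ht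
    have hle : ∑ i ∈ t, x i ≤ ∑ i ∈ Finset.range k, x i :=
      Finset.sum_le_sum_of_subset htk
    have hlt := hm_lt k
    have ha : m k < m l := by omega
    have hb : m l < m (k + 1) := by omega
    have := hmono.lt_iff_lt.1 ha
    have := hmono.lt_iff_lt.1 hb
    omega
  obtain ⟨X, iM, iC, T, y, F, hT, hd, hF, hu⟩ := hψ
  -- limit point
  let V : Ultrafilter ℕ := Filter.hyperfilter ℕ
  have hV : (V : Filter ℕ) ≤ atTop := by
    rw [← Nat.cofinite_eq_atTop]
    exact Filter.hyperfilter_le_cofinite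
  obtain ⟨z, -, hz⟩ := isCompact_univ.ultrafilter_le_nhds (V.map (fun k => T^[m k] y)) (by simp)
  have hz' : Tendsto (fun k => T^[m k] y) V (𝓝 z) := hz
  have hFz : F z = 0 := by
    have h2 : Tendsto (fun k => F (T^[m k] y)) V (𝓝 (F z)) := (hF.tendsto z).comp hz'
    have h3 : (fun k => F (T^[m k] y)) = fun _ => 0 := by
      funext k
      rw [← hu, h0]
    rw [h3] at h2
    exact tendsto_nhds_unique h2 tendsto_const_nhds |>.symm ▸ rfl
  have hFs : ∀ t : Finset ℕ, t.Nonempty → F (T^[∑ i ∈ t, x i] z) = 1 := by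
    intro t ht
    have h2 : Tendsto (fun k => F (T^[∑ i ∈ t, x i] (T^[m k] y))) V
        (𝓝 (F (T^[∑ i ∈ t, x i] z))) :=
      ((hF.comp (hT.iterate _)).tendsto z).comp hz'
    have h3 : ∀ᶠ k in (V : Filter ℕ), F (T^[∑ i ∈ t, x i] (T^[m k] y)) = 1 := by
      apply hV
      obtain ⟨K, hK⟩ := t.exists_nat_subset_range
      filter_upwards [eventually_ge_atTop K] with k hk
      rw [← Function.iterate_add_apply, ← hu, add_comm]
      exact h1 t ht k (hK.trans (Finset.range_subset_range.2 hk))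
    exact tendsto_nhds_unique h2 (tendsto_const_nhds.congr' (h3.mono fun k hk => hk.symm))
  obtain ⟨U, hU, hUx⟩ := Hindman.exists_idempotent_ultrafilter_le_FS (x : Stream' ℕ)
  have h4 := (hF.tendsto z).comp (ip_recurrence hT hd U hU z)
  have h5 : ∀ᶠ n in (U : Filter ℕ), F (T^[n] z) = 1 := by
    filter_upwards [hUx] with n hn
    obtain ⟨t, ht, -, rfl⟩ := FS_sub x x 0 (fun i => by simp [Stream'.get]) n hn
    exact hFs t ht
  have h6 : F z = 1 :=
    tendsto_nhds_unique h4 (tendsto_const_nhds.congr' (h5.mono fun k hk => hk.symm))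
  rw [hFz] at h6
  exact zero_ne_one h6

end Pool.Agent.R205.DI
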