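import Pool.Agent.R205.DI.IP
/-!
# Iterated bounded-gap subsets and finite sums
-/
namespace Pool.Agent.R205.DI
open Set Filter Topology

/-- the elements of `E` which have another element of `E` in the next `g` places. -/
def Dn (E : Set ℕ) (g : ℕ) : Set ℕ := {e | e ∈ E ∧ ∃ n, 1 ≤ n ∧ n ≤ g ∧ e + n ∈ E}

/-- thickening -/
def Th (A : Set ℕ) (h : ℕ) : Set ℕ := {m | ∃ a ∈ A, m ≤ a + h ∧ a ≤ m + h}

/-- `A ∩ (A - n)` -/
def Sh (A : Set ℕ) (n : ℕ) : Set ℕ := {m | m ∈ A ∧ m + n ∈ A}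

/-- ideals avoiding a chain -/
structure IsId (C : ℕ → Set ℕ) (J : Set (Set ℕ)) : Prop where
  fin : ∀ A : Set ℕ, A.Finite → A ∈ J
  mono : ∀ A B : Set ℕ, A ⊆ B → B ∈ J → A ∈ J
  union : ∀ A B : Set ℕ, A ∈ J → B ∈ J → A ∪ B ∈ J
  th : ∀ (A : Set ℕ) (h : ℕ), A ∈ J → Th A h ∈ J
  avoid : ∀ k, C k ∉ J

theorem Th_finite {A : Set ℕ} (hA : A.Finite) (h : ℕ) : (Th A h).Finite := by
  obtain ⟨M, hM⟩ := hA.bddAbove
  refine (Set.finite_le_nat (M + h)).subset ?_
  rintro m ⟨a, ha, h1, h2⟩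
  have := hM ha
  change m ≤ M + h
  omega

theorem Dn_subset (E : Set ℕ) (g : ℕ) : Dn E g ⊆ E := fun _ h => h.1

theorem exists_maxId (C : ℕ → Set ℕ) (hinf : ∀ k, (C k).Infinite) :
    ∃ J, Maximal (fun J => IsId C J) J := by
  obtain ⟨J, -, hJ⟩ := zorn_subset_nonempty {J | IsId C J} (by
    intro c hc hchain hne
    refine ⟨⋃₀ c, ?_, fun s hs => subset_sUnion_of_mem hs⟩
    obtain ⟨J₀, hJ₀⟩ := hne
    refine ⟨?_, ?_, ?_, ?_, ?_⟩
    · intro A hA
      exact ⟨J₀, hJ₀, (hc hJ₀).fin A hA⟩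
    · rintro A B hAB ⟨J, hJ, hB⟩
      exact ⟨J, hJ, (hc hJ).mono A B hAB hB⟩
    · rintro A B ⟨J, hJ, hA⟩ ⟨J', hJ', hB⟩
      rcases hchain.total hJ hJ' with h | h
      · exact ⟨J', hJ', (hc hJ').union A B (h hA) hB⟩
      · exact ⟨J, hJ, (hc hJ).union A B hA (h hB)⟩
    · rintro A h ⟨J, hJ, hA⟩
      exact ⟨J, hJ, (hc hJ).th A h hA⟩
    · rintro k ⟨J, hJ, hk⟩
      exact (hc hJ).avoid k hk) {A | A.Finite} (by
    refine ⟨fun A hA => hA, fun A B hAB hB => Set.Finite.subset hB hAB,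
      fun A B hA hB => Set.Finite.union hA hB, fun A h hA => Th_finite hA h,
      fun k hk => hinf k hk⟩)
  exact ⟨J, hJ⟩

theorem gap_lemma (C : ℕ → Set ℕ) (g : ℕ → ℕ) (hC : ∀ k, C (k + 1) = Dn (C k) (g k)) (j r : ℕ) :
    ∃ G, ∀ e ∈ C (j + r), e ∈ C j ∧ ∃ e' ∈ C j, e + r ≤ e' ∧ e' ≤ e + G := by
  induction r with
  | zero => exact ⟨0, fun e he => ⟨he, e, he, by omega, by omega⟩⟩
  | succ r ih =>
    obtain ⟨G, hG⟩ := ih
    refine ⟨G + g (j + r), fun e he => ?_⟩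
    rw [show j + (r + 1) = (j + r) + 1 by ring, hC] at he
    obtain ⟨he1, n, hn1, hn2, hn3⟩ := he
    obtain ⟨-, e', he', h1, h2⟩ := hG _ hn3
    exact ⟨(hG _ he1).1, e', he', by omega, by omega⟩

theorem IsId.biUnion {C : ℕ → Set ℕ} {J : Set (Set ℕ)} (hJ : IsId C J) (A : ℕ → Set ℕ)
    (s : Finset ℕ) (h : ∀ n ∈ s, A n ∈ J) : (⋃ n ∈ s, A n) ∈ J := by
  classical
  induction s using Finset.induction_on with
  | empty => simpa using hJ.fin ∅ Set.finite_empty
  | insert a s _ ih =>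
    rw [Finset.set_biUnion_insert]
    exact hJ.union _ _ (h a (Finset.mem_insert_self _ _))
      (ih fun n hn => h n (Finset.mem_insert_of_mem hn))

theorem exists_shift (C : ℕ → Set ℕ) (g : ℕ → ℕ) (hC : ∀ k, C (k + 1) = Dn (C k) (g k))
    {J : Set (Set ℕ)} (hJ : Maximal (fun J => IsId C J) J) (A : Set ℕ) (hA : A ∉ J) :
    ∃ n, 0 < n ∧ Sh A n ∉ J := by
  by_contra hcon
  push Not at hcon
  have hId := hJ.prop
  let J' : Set (Set ℕ) := {B | ∃ K ∈ J, ∃ h, B ⊆ K ∪ Th A h}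
  have hJJ' : J ⊆ J' := fun K hK => ⟨K, hK, 0, subset_union_left⟩
  have hAJ' : A ∈ J' :=
    ⟨∅, hId.fin _ Set.finite_empty, 0, fun a ha => Or.inr ⟨a, ha, by omega, by omega⟩⟩
  have hJ' : ¬ IsId C J' := by
    intro h
    exact hA (hJ.le_of_ge h hJJ' hAJ')
  -- the only property that may fail is the last one
  have havoid : ∃ k, C k ∈ J' := by
    by_contra hno
    push Not at hno
    refine hJ' ⟨fun B hB => hJJ' (hId.fin B hB), ?_, ?_, ?_, hno⟩
    · rintro B B' hBB' ⟨K, hK, h, hB'⟩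
      exact ⟨K, hK, h, hBB'.trans hB'⟩
    · rintro B B' ⟨K, hK, h, hB⟩ ⟨K', hK', h', hB'⟩
      refine ⟨K ∪ K', hId.union _ _ hK hK', max h h', ?_⟩
      rintro m (hm | hm)
      · rcases hB hm with h1 | ⟨a, ha, h1, h2⟩
        · exact Or.inl (Or.inl h1)
        · exact Or.inr ⟨a, ha, h1.trans (by gcongr; exact le_max_left _ _),
            h2.trans (by gcongr; exact le_max_left _ _)⟩
      · rcases hB' hm with h1 | ⟨a, ha, h1, h2⟩
        · exact Or.inl (Or.inr h1)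
        · exact Or.inr ⟨a, ha, h1.trans (by gcongr; exact le_max_right _ _),
            h2.trans (by gcongr; exact le_max_right _ _)⟩
    · rintro B t ⟨K, hK, h, hB⟩
      refine ⟨Th K t, hId.th _ _ hK, h + t, ?_⟩
      rintro m ⟨b, hb, h1, h2⟩
      rcases hB hb with h3 | ⟨a, ha, h3, h4⟩
      · exact Or.inl ⟨b, h3, h1, h2⟩
      · exact Or.inr ⟨a, ha, by omega, by omega⟩
  obtain ⟨j, K, hK, h, hj⟩ := havoid
  obtain ⟨G, hG⟩ := gap_lemma C g hC j (2 * h + 1)
  refine hId.avoid (j + (2 * h + 1)) (hId.mono _ _ ?_ (hId.union _ _ (hId.th K G hK)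
    (hId.th _ h (hId.biUnion (Sh A) (Finset.Icc 1 (G + 2 * h)) fun n hn =>
      hcon n (Finset.mem_Icc.1 hn).1))))
  intro e he
  obtain ⟨he1, e', he', h1, h2⟩ := hG e he
  rcases hj he1 with h3 | ⟨a, ha, h3, h4⟩
  · exact Or.inl ⟨e, h3, by omega, by omega⟩
  rcases hj he' with h5 | ⟨a', ha', h5, h6⟩
  · exact Or.inl ⟨e', h5, by omega, by omega⟩
  · refine Or.inr ⟨a, ?_, h3, h4⟩
    simp only [mem_iUnion]
    refine ⟨a' - a, Finset.mem_Icc.2 ⟨by omega, by omega⟩, ha, ?_⟩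
    rw [show a + (a' - a) = a' by omega]
    exact ha'

theorem hasIP_of_notMem (C : ℕ → Set ℕ) (g : ℕ → ℕ) (hC : ∀ k, C (k + 1) = Dn (C k) (g k))
    {J : Set (Set ℕ)} (hJ : Maximal (fun J => IsId C J) J) (A : Set ℕ) (hA : A ∉ J) :
    HasIP A := by
  have hstep : ∀ B : {B : Set ℕ // B ∉ J}, ∃ n, 0 < n ∧ Sh B.1 n ∉ J := fun B =>
    exists_shift C g hC hJ B.1 B.2
  choose ν hν1 hν2 using hstep
  let B : ℕ → {B : Set ℕ // B ∉ J} := fun k => Nat.rec ⟨A, hA⟩ (fun _ B => ⟨Sh B.1 (ν B), hν2 B⟩) k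
  have hB0 : (B 0).1 = A := rfl
  have hBs : ∀ k, (B (k + 1)).1 = Sh (B k).1 (ν (B k)) := fun k => rfl
  refine ⟨fun k => ν (B k), fun k => hν1 _, fun k => ?_⟩
  have hsub : ∀ k, ∀ m ∈ (B k).1, ∀ t ⊆ Finset.range k, m + ∑ i ∈ t, ν (B i) ∈ A := by
    intro k
    induction k with
    | zero =>
      intro m hm t ht
      have : t = ∅ := by simpa using ht
      subst this
      simpa [hB0] using hm
    | succ k ih =>
      intro m hm t ht
      rw [hBs] at hm
      obtain ⟨hm1, hm2⟩ := hm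
      by_cases hk : k ∈ t
      · have h1 := ih _ hm2 (t.erase k) (by
          intro i hi
          have h1 := Finset.mem_erase.1 hi
          have h2 := Finset.mem_range.1 (ht h1.2)
          have h3 := h1.1
          exact Finset.mem_range.2 (by omega))
        rw [← Finset.add_sum_erase t _ hk, ← add_assoc]
        exact h1
      · exact ih _ hm1 t (by
          intro i hi
          have h2 := Finset.mem_range.1 (ht hi)
          have h3 : i ≠ k := fun h => hk (h ▸ hi)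
          exact Finset.mem_range.2 (by omega))
  refine Set.Infinite.mono (fun m hm => hsub k m hm) ?_
  intro hfin
  exact (B k).2 (hJ.prop.fin _ hfin)

theorem hasIP_of_chain (C : ℕ → Set ℕ) (g : ℕ → ℕ) (hC : ∀ k, C (k + 1) = Dn (C k) (g k))
    (hinf : ∀ k, (C k).Infinite) {A B : Set ℕ} (hAB : C 0 ⊆ A ∪ B) : HasIP A ∨ HasIP B := by
  obtain ⟨J, hJ⟩ := exists_maxId C hinf
  by_cases hA : A ∈ J
  · right
    refine hasIP_of_notMem C g hC hJ B fun hB => ?_
    exact hJ.prop.avoid 0 (hJ.prop.mono _ _ hAB (hJ.prop.union _ _ hA hB))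
  · left
    exact hasIP_of_notMem C g hC hJ A hA

theorem HasIP.of_union {A B : Set ℕ} (h : HasIP (A ∪ B)) : HasIP A ∨ HasIP B := by
  obtain ⟨x, hx, hk⟩ := h
  let C : ℕ → Set ℕ := fun k => Nat.rec (A ∪ B) (fun k D => Dn D (x k)) k
  have hsub : ∀ k, {m : ℕ | ∀ t ⊆ Finset.range k, m + ∑ i ∈ t, x i ∈ A ∪ B} ⊆ C k := by
    intro k
    induction k with
    | zero =>
      intro m hm
      have := hm ∅ (by simp)
      rw [Finset.sum_empty, add_zero] at this
      exact this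
    | succ k ih =>
      intro m hm
      refine ⟨ih fun t ht => hm t (ht.trans (Finset.range_subset_range.2 (Nat.le_succ k))), x k,
        hx k, le_rfl, ih fun t ht => ?_⟩
      have hkt : k ∉ t := fun h => by simpa using Finset.mem_range.1 (ht h)
      have := hm (insert k t) (by
        intro i hi
        rcases Finset.mem_insert.1 hi with h | h
        · subst h; simp
        · have := Finset.mem_range.1 (ht h)
          exact Finset.mem_range.2 (by omega))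
      rw [Finset.sum_insert hkt, ← add_assoc] at this
      exact this
  exact hasIP_of_chain C x (fun k => rfl) (fun k => (hk k).mono (hsub k)) (subset_refl _)

end Pool.Agent.R205.DI
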