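import Pool.Agent.R205.DI.Ideal
/-!
# The inductive step: interpolation through circle extensions
-/
namespace Pool.Agent.R205.DI
open Set Filter Topology

/-- `E + [0, h]` -/
def Up (E : Set ℕ) (h : ℕ) : Set ℕ := {m | ∃ e ∈ E, e ≤ m ∧ m ≤ e + h}

theorem Int01.mono {A B : Set ℕ} (hAB : A ⊆ B) (h : Int01 B) : Int01 A := by
  intro f hf
  obtain ⟨ψ, h1, h2⟩ := h f hf
  exact ⟨ψ, h1, fun n hn => h2 n (hAB hn)⟩

theorem int_finite {A : Set ℕ} (hA : A.Finite) : Int01 A := by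
  intro f _
  obtain ⟨M, hM⟩ := hA.bddAbove
  refine ⟨fun n => f (n % (M + 1)), isD_periodic (M + 1) (Nat.succ_pos M) f, fun n hn => ?_⟩
  have := hM hn
  simp only
  rw [Nat.mod_eq_of_lt (by omega)]

/-- one step of the construction of the cocycle -/
theorem cocycle_step {E : Set ℕ} (γ : ℕ → ℕ) (h1 : ∀ e, 1 ≤ γ e) (h2 : ∀ e, e + γ e ∈ E)
    (h3 : ∀ e n, 1 ≤ n → n < γ e → e + n ∉ E) (hint : ∀ g h, Int01 (Up (Dn E g) h))
    (c : ℕ → ℝ) (k : ℕ) (Θ : {u : ℕ → ℝ // IsD u}) :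
    ∃ Θ' : {u : ℕ → ℝ // IsD u}, (∀ n, |Θ'.1 n - Θ.1 n| ≤ (1 / 2) ^ k) ∧
      (∀ e ∈ E, γ e < 2 ^ k → ∀ s < γ e, Θ'.1 (e + s) = Θ.1 (e + s)) ∧
      (∀ e ∈ E, 2 ^ k ≤ γ e → γ e < 2 ^ (k + 1) →
        ((∑ s ∈ Finset.range (γ e), Θ'.1 (e + s) : ℝ) : UnitAddCircle) = (c e : ℝ)) := by
  classical
  let fr : ℕ → ℝ := fun e => Int.fract (c e - ∑ s ∈ Finset.range (γ e), Θ.1 (e + s))
  let v : ℕ → ℝ := fun n =>
    if 2 ^ k ≤ γ (Nat.findGreatest (· ∈ E) n) ∧ n - Nat.findGreatest (· ∈ E) n < 2 ^ k then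
      fr (Nat.findGreatest (· ∈ E) n) else 0
  have hv : ∀ n, 0 ≤ v n ∧ v n ≤ 1 := by
    intro n
    simp only [v]
    split_ifs
    · exact ⟨Int.fract_nonneg _, (Int.fract_lt_one _).le⟩
    · exact ⟨le_rfl, zero_le_one⟩
  obtain ⟨ρ, hρ, hρv⟩ := hint (2 ^ (k + 1)) (2 ^ (k + 1)) v hv
  -- the greatest element below a point of a window
  have hgr : ∀ e ∈ E, ∀ s < γ e, Nat.findGreatest (· ∈ E) (e + s) = e := by
    intro e he s hs
    rw [Nat.findGreatest_eq_iff]
    refine ⟨Nat.le_add_right _ _, fun _ => he, ?_⟩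
    intro n hn1 hn2 hn3
    have := h3 e (n - e) (by omega) (by omega)
    rw [show e + (n - e) = n by omega] at this
    exact this hn3
  have hP : ∀ e ∈ E, γ e < 2 ^ (k + 1) → ∀ s < γ e, e + s ∈ Up (Dn E (2 ^ (k + 1))) (2 ^ (k + 1)) := by
    intro e he hγ s hs
    exact ⟨e, ⟨he, γ e, h1 e, hγ.le, h2 e⟩, Nat.le_add_right _ _, by omega⟩
  let ρ' : ℕ → ℝ := fun n => (1 / 2) ^ k * max 0 (min (ρ n) 1)
  have hρ' : IsD ρ' := hρ.comp (G := fun t : ℝ => (1 / 2) ^ k * max 0 (min t 1)) (by fun_prop)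
  have hρ'v : ∀ e ∈ E, γ e < 2 ^ (k + 1) → ∀ s < γ e, ρ' (e + s) = (1 / 2) ^ k * v (e + s) := by
    intro e he hγ s hs
    simp only [ρ']
    rw [hρv _ (hP e he hγ s hs), min_eq_left (hv _).2, max_eq_right (hv _).1]
  refine ⟨⟨fun n => Θ.1 n + ρ' n, Θ.2.add hρ'⟩, ?_, ?_, ?_⟩
  · intro n
    simp only [add_sub_cancel_left]
    have hb : 0 ≤ max 0 (min (ρ n) 1) ∧ max 0 (min (ρ n) 1) ≤ 1 :=
      ⟨le_max_left _ _, max_le zero_le_one (min_le_right _ _)⟩
    rw [abs_of_nonneg (by positivity)]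
    exact mul_le_of_le_one_right (by positivity) hb.2
  · intro e he hγ s hs
    simp only
    rw [hρ'v e he (hγ.trans (by gcongr <;> omega)) s hs]
    have : v (e + s) = 0 := by
      simp only [v]
      rw [hgr e he s hs, if_neg (fun h => by omega)]
    rw [this, mul_zero, add_zero]
  · intro e he hγ1 hγ2
    simp only
    rw [Finset.sum_add_distrib]
    have hsum : ∑ s ∈ Finset.range (γ e), ρ' (e + s) = fr e := by
      have h4 : ∀ s ∈ Finset.range (γ e), ρ' (e + s)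
          = if s ∈ Finset.range (2 ^ k) then (1 / 2) ^ k * fr e else 0 := by
        intro s hs
        have hs' := Finset.mem_range.1 hs
        rw [hρ'v e he hγ2 s hs']
        simp only [v]
        rw [hgr e he s hs']
        simp only [hγ1, true_and, Nat.add_sub_cancel_left, Finset.mem_range]
        split_ifs <;> simp
      rw [Finset.sum_congr rfl h4, ← Finset.sum_filter, Finset.filter_mem_eq_inter,
        Finset.inter_eq_right.2 (Finset.range_subset_range.2 hγ1), Finset.sum_const,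
        Finset.card_range, nsmul_eq_mul]
      push_cast
      rw [← mul_assoc, ← mul_pow]
      norm_num
    rw [hsum]
    simp only [fr]
    have : (∑ s ∈ Finset.range (γ e), Θ.1 (e + s))
        + Int.fract (c e - ∑ s ∈ Finset.range (γ e), Θ.1 (e + s))
        = c e - (⌊c e - ∑ s ∈ Finset.range (γ e), Θ.1 (e + s)⌋ : ℝ) := by
      rw [Int.fract]
      ring
    rw [this, AddCircle.coe_sub]
    rw [show ((⌊c e - ∑ s ∈ Finset.range (γ e), Θ.1 (e + s)⌋ : ℝ) : UnitAddCircle) = 0 by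
      have := AddCircle.coe_eq_zero_iff (p := (1:ℝ))
        (x := (⌊c e - ∑ s ∈ Finset.range (γ e), Θ.1 (e + s)⌋ : ℝ))
      rw [this]
      exact ⟨⌊c e - ∑ s ∈ Finset.range (γ e), Θ.1 (e + s)⌋, by simp⟩]
    rw [sub_zero]

/-- the core lemma -/
theorem int_core {E : Set ℕ} (hE : E.Infinite) (hint : ∀ g h, Int01 (Up (Dn E g) h)) :
    Int01 E := by
  classical
  intro f hf
  have hex : ∀ e, ∃ n, 1 ≤ n ∧ e + n ∈ E := by
    intro e
    obtain ⟨m, hm, hme⟩ := hE.exists_gt e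
    exact ⟨m - e, by omega, by rwa [show e + (m - e) = m by omega]⟩
  let γ : ℕ → ℕ := fun e => Nat.find (hex e)
  have h1 : ∀ e, 1 ≤ γ e := fun e => (Nat.find_spec (hex e)).1
  have h2 : ∀ e, e + γ e ∈ E := fun e => (Nat.find_spec (hex e)).2
  have h3 : ∀ e n, 1 ≤ n → n < γ e → e + n ∉ E := fun e n hn hlt h =>
    Nat.find_min (hex e) hlt ⟨hn, h⟩
  let F : ℕ → ℝ := fun n => f n / 2
  let c : ℕ → ℝ := fun e => F (e + γ e) - F e
  choose nx hn1 hn2 hn3 using cocycle_step γ h1 h2 h3 hint c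
  let Θ : ℕ → {u : ℕ → ℝ // IsD u} := fun k => Nat.rec ⟨fun _ => 0, isD_const 0⟩ (fun k Θ => nx k Θ) k
  have hΘs : ∀ k, Θ (k + 1) = nx k (Θ k) := fun k => rfl
  have hΘ0 : ∀ n, (Θ 0).1 n = 0 := fun n => rfl
  let θ : ℕ → ℝ := fun n => ∑' k, ((Θ (k + 1)).1 n - (Θ k).1 n)
  have hθ : IsD θ := by
    refine isD_tsum (φ := fun k n => (Θ (k + 1)).1 n - (Θ k).1 n) (fun k => (Θ (k + 1)).2.sub (Θ k).2)
      (ε := fun k => (1 / 2) ^ k) summable_geometric_two ?_
    intro k n
    rw [hΘs]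
    exact hn1 k (Θ k) n
  -- stabilisation on windows
  have hstab : ∀ e ∈ E, ∀ k, γ e < 2 ^ (k + 1) → ∀ s < γ e, θ (e + s) = (Θ (k + 1)).1 (e + s) := by
    intro e he k hk s hs
    have hz : ∀ j, j ∉ Finset.range (k + 1) → (Θ (j + 1)).1 (e + s) - (Θ j).1 (e + s) = 0 := by
      intro j hj
      rw [Finset.mem_range, not_lt] at hj
      rw [hΘs, hn2 j (Θ j) e he (hk.trans_le (Nat.pow_le_pow_right (by norm_num) hj)) s hs,
        sub_self]
    simp only [θ]
    rw [tsum_eq_sum hz, Finset.sum_range_sub (fun k => (Θ k).1 (e + s)), hΘ0, sub_zero]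
  have hwin : ∀ e ∈ E, ((∑ s ∈ Finset.range (γ e), θ (e + s) : ℝ) : UnitAddCircle) = (c e : ℝ) := by
    intro e he
    obtain ⟨k, hk1, hk2⟩ : ∃ k, 2 ^ k ≤ γ e ∧ γ e < 2 ^ (k + 1) :=
      ⟨Nat.log 2 (γ e), Nat.pow_log_le_self 2 (by have := h1 e; omega),
        Nat.lt_pow_succ_log_self (by norm_num) _⟩
    rw [Finset.sum_congr rfl fun s hs => hstab e he k hk2 s (Finset.mem_range.1 hs), hΘs]
    exact hn3 k (Θ k) e he hk1 hk2
  obtain ⟨e₀, he₀⟩ := hE.nonempty
  let e₁ := Nat.find ⟨e₀, he₀⟩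
  have he₁ : e₁ ∈ E := Nat.find_spec ⟨e₀, he₀⟩
  have hmin : ∀ n ∈ E, e₁ ≤ n := fun n hn => Nat.find_min' _ hn
  let S : ℕ → UnitAddCircle := fun n => ((∑ j ∈ Finset.range n, θ j : ℝ) : UnitAddCircle)
  have hS : IsD S := isD_sum hθ
  let C : UnitAddCircle := (F e₁ : ℝ) - S e₁
  have hmain : ∀ n, n ∈ E → S n + C = (F n : ℝ) := by
    intro n
    induction n using Nat.strong_induction_on with
    | _ n ih =>
      intro hn
      by_cases hne : n = e₁
      · rw [hne]; simp [C]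
      · have hlt : e₁ < n := lt_of_le_of_ne (hmin n hn) (Ne.symm hne)
        set e := Nat.findGreatest (· ∈ E) (n - 1) with he
        have heE : e ∈ E := Nat.findGreatest_spec (P := (· ∈ E)) (n := n - 1) (m := e₁) (by omega) he₁
        have hele : e ≤ n - 1 := Nat.findGreatest_le _
        have hγe : e + γ e = n := by
          have ha : n ≤ e + γ e := by
            by_contra hcon
            exact Nat.findGreatest_is_greatest (P := (· ∈ E)) (n := n - 1) (k := e + γ e)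
              (by have := h1 e; omega) (by omega) (h2 e)
          have hb : e + γ e ≤ n := by
            by_contra hcon
            refine h3 e (n - e) (by omega) (by omega) ?_
            rwa [show e + (n - e) = n by omega]
          omega
        have h4 := ih e (by omega) heE
        have h5 : S n = S e + ((∑ s ∈ Finset.range (γ e), θ (e + s) : ℝ) : UnitAddCircle) := by
          have h5' : ∑ j ∈ Finset.range n, θ j
              = ∑ j ∈ Finset.range e, θ j + ∑ s ∈ Finset.range (γ e), θ (e + s) := by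
            rw [← Finset.sum_range_add, hγe]
          simp only [S]
          rw [h5', AddCircle.coe_add]
        rw [h5, hwin e heE]
        have h6 : S e + ((c e : ℝ) : UnitAddCircle) + C = (S e + C) + (c e : ℝ) := by abel
        rw [h6, h4, ← AddCircle.coe_add]
        simp only [c]
        rw [hγe]
        congr 1
        ring
  refine ⟨fun n => 2 * ‖S n + C‖, hS.comp (G := fun z : UnitAddCircle => 2 * ‖z + C‖) (by fun_prop),
    fun n hn => ?_⟩
  simp only
  rw [hmain n hn]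
  have hfn := hf n
  have hF : ‖((F n : ℝ) : UnitAddCircle)‖ = |F n| := by
    rw [AddCircle.norm_coe_eq_abs_iff (1:ℝ) one_ne_zero]
    simp only [F]
    rw [abs_of_nonneg (by linarith [hfn.1]), abs_one]
    linarith [hfn.2]
  rw [hF, abs_of_nonneg (by simp only [F]; linarith [hfn.1])]
  simp only [F]
  ring

theorem isD_finsum {φ : ℕ → ℕ → ℝ} (h : ∀ k, IsD (φ k)) (M : ℕ) :
    IsD (fun n => ∑ k ∈ Finset.range M, φ k n) := by
  induction M with
  | zero => simpa using isD_const (0:ℝ)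
  | succ M ih =>
    simp only [Finset.sum_range_succ]
    exact ih.add (h M)

theorem int_of_residues {A : Set ℕ} (M : ℕ) (hM : 0 < M)
    (h : ∀ r < M, Int01 {n | n ∈ A ∧ n % M = r}) : Int01 A := by
  intro f hf
  have h1 : ∀ r, ∃ ψ : ℕ → ℝ, IsD ψ ∧ ∀ n ∈ {n | n ∈ A ∧ n % M = r}, ψ n = f n := by
    intro r
    by_cases hr : r < M
    · exact h r hr f hf
    · refine ⟨fun _ => 0, isD_const 0, ?_⟩
      rintro n ⟨-, hn⟩
      exact absurd (hn ▸ Nat.mod_lt n hM) hr
  choose ψ hψ1 hψ2 using h1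
  refine ⟨fun n => ∑ r ∈ Finset.range M, (if n % M = r then 1 else 0) * ψ r n,
    isD_finsum (φ := fun r n => (if n % M = r then 1 else 0) * ψ r n) (fun r =>
      (isD_periodic M hM (fun n => if n = r then (1:ℝ) else 0)).mul (hψ1 r)) M, fun n hn => ?_⟩
  simp only
  rw [Finset.sum_eq_single (n % M)]
  · rw [if_pos rfl, one_mul]
    exact hψ2 (n % M) n ⟨hn, rfl⟩
  · intro r _ hr
    rw [if_neg (Ne.symm hr), zero_mul]
  · intro h
    exact absurd (Finset.mem_range.2 (Nat.mod_lt n hM)) h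

/-- all thickenings are interpolation sets -/
def IntStar (E : Set ℕ) : Prop := ∀ h, Int01 (Up E h)

theorem Up_finite {A : Set ℕ} (hA : A.Finite) (h : ℕ) : (Up A h).Finite := by
  obtain ⟨M, hM⟩ := hA.bddAbove
  refine (Set.finite_le_nat (M + h)).subset ?_
  rintro m ⟨a, ha, h1, h2⟩
  have := hM ha
  change m ≤ M + h
  omega

theorem intStar_finite {A : Set ℕ} (hA : A.Finite) : IntStar A := fun h =>
  int_finite (Up_finite hA h)

theorem intStar_step {E : Set ℕ} (hE : ∀ g, IntStar (Dn E g)) : IntStar E := by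
  intro h
  refine int_of_residues (h + 1) (Nat.succ_pos h) fun r _ => ?_
  set A : Set ℕ := {n | n ∈ Up E h ∧ n % (h + 1) = r} with hA
  by_cases hfin : A.Finite
  · exact int_finite hfin
  refine int_core hfin fun g h' => (hE (g + h) (h + h')).mono ?_
  rintro m ⟨x, ⟨⟨⟨e, he, h1, h2⟩, hxr⟩, n, hn1, hn2, ⟨⟨e', he', h3, h4⟩, hxr'⟩⟩, h5, h6⟩
  have hdiv : (h + 1) ∣ n := by
    have h7 : x % (h + 1) = (x + n) % (h + 1) := by rw [hxr, hxr']
    have h8 : (x : ℕ) ≡ x + n [MOD (h + 1)] := h7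
    have h9 := (Nat.modEq_iff_dvd' (Nat.le_add_right x n)).1 h8
    rwa [Nat.add_sub_cancel_left] at h9
  have hle := Nat.le_of_dvd (by omega) hdiv
  refine ⟨e, ⟨he, e' - e, by omega, by omega, ?_⟩, by omega, by omega⟩
  rwa [show e + (e' - e) = e' by omega]

theorem intStar_of_not_hasIP {E : Set ℕ} (h : ¬ HasIP E) : IntStar E := by
  by_contra hcon
  have hstep : ∀ D : {D : Set ℕ // ¬ IntStar D}, ∃ g, ¬ IntStar (Dn D.1 g) := by
    intro D
    by_contra hno
    push Not at hno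
    exact D.2 (intStar_step hno)
  choose G hG using hstep
  let C : ℕ → {D : Set ℕ // ¬ IntStar D} := fun k =>
    Nat.rec ⟨E, hcon⟩ (fun _ D => ⟨Dn D.1 (G D), hG D⟩) k
  have hCs : ∀ k, (C (k + 1)).1 = Dn (C k).1 (G (C k)) := fun k => rfl
  have := hasIP_of_chain (fun k => (C k).1) (fun k => G (C k)) hCs
    (fun k hfin => (C k).2 (intStar_finite hfin)) (A := E) (B := E) (by
      rw [Set.union_self]
      exact subset_refl _)
  exact h (by simpa using this)

theorem int_iff {E : Set ℕ} : Int01 E ↔ ¬ HasIP E := by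
  constructor
  · intro h h'
    exact not_int_of_hasIP h' h
  · intro h
    refine (intStar_of_not_hasIP h 0).mono ?_
    intro e he
    exact ⟨e, he, le_rfl, le_rfl⟩

theorem int_union {A B : Set ℕ} (hA : Int01 A) (hB : Int01 B) : Int01 (A ∪ B) := by
  rw [int_iff] at hA hB ⊢
  intro h
  rcases h.of_union with h | h
  · exact hA h
  · exact hB h

end Pool.Agent.R205.DI
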